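import Pool.Agent.H.MP_c081e6_an.E

open scoped ContDiff
open MeasureTheory

namespace Pool.Agent.Results.MP_c081e6_an.Bounded

theorem result : ∀ p : ℝ, 1 < p → p < 5 / 3 →
    ∃ u : EuclideanSpace ℝ (Fin 20) → ℝ, ContDiff ℝ 1 u ∧
      (∀ φ : EuclideanSpace ℝ (Fin 20) → ℝ, ContDiff ℝ ∞ φ → HasCompactSupport φ →
        Integrable (fun y => ‖gradient u y‖ ^ (p - 2) * inner ℝ (gradient u y) (gradient φ y)) ∧
        ∫ y, ‖gradient u y‖ ^ (p - 2) * inner ℝ (gradient u y) (gradient φ y) = 0) ∧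
      ¬ ContDiffAt ℝ 3 u 0 := by
  intro p h1 h2
  obtain ⟨a, M, L, C, g, P, R, h⟩ :=
    Pool.Agent.H.MP_c081e6_an.exists_prof (q := p - 1) (by linarith) (by linarith)
  obtain ⟨S, c1, c2, i, j, hi, hj⟩ : ∃ S : Finset (Fin 20), S.card = 10 ∧ Sᶜ.card = 10 ∧
      ∃ i j, i ∈ S ∧ j ∉ S := ⟨Finset.Iio 10, by decide, by decide, 0, 10, by decide, by decide⟩
  refine ⟨_, h.cd_u S hi hj, fun φ hφ hc => ?_, h.not_cd S hi hj⟩
  have e : (fun y => ‖gradient (Pool.Agent.H.MP_c081e6_an.uu S a M g) y‖ ^ (p - 2) *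
      inner ℝ (gradient (Pool.Agent.H.MP_c081e6_an.uu S a M g) y) (gradient φ y)) =
      fun y => ∑ i, Pool.Agent.H.MP_c081e6_an.WW S (p - 1) a L P R y i *
        fderiv ℝ φ y (Pool.Agent.H.MP_f4f698_an.ee i) := by
    ext y
    rw [h.grad_u S hi hj, show p - 2 = p - 1 - 1 by ring,
      ← Pool.Agent.H.MP_f4f698_an.sum_inner, Finset.mul_sum]
    refine Finset.sum_congr rfl fun i _ => ?_
    have : fderiv ℝ φ y (Pool.Agent.H.MP_f4f698_an.ee i) = gradient φ y i := by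
      rw [← Pool.Agent.H.MP_f4f698_an.inner_ee', inner_gradient_left]
    rw [this, Pool.Agent.H.MP_c081e6_an.WW, PiLp.smul_apply, smul_eq_mul, mul_assoc]
  rw [e]
  exact h.weak S c1 c2 (hφ.of_le (by simp)) hc

end Pool.Agent.Results.MP_c081e6_an.Bounded
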